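import Pool.Agent.E8helper59.TS.Stm2

/-! # Project TS, S_CNT2: counting by integration over the slices, convex windows
(after helper7's file) -/

set_option autoImplicit false
open MeasureTheory Set Filter Topology
open scoped Pointwise ENNReal

namespace Pool.Agent.E8helper63.TS

open Pool.Agent.E8helper59.TS

open Classical in
theorem t_CNT2 (h1 : S_HALF) (h2 : S_FIN2) (h3 : S_SLICE) : S_CNT2 := by
  intro m D A hA hDc hDconv hDi hCap
  have hB := h1 D hDc hDconv hDi
  obtain ⟨k0, hk0i⟩ := hDi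
  have hk0 : k0 ∈ D := interior_subset hk0i
  obtain ⟨ρ, hρ⟩ := hB.comp.isBounded.exists_norm_le
  have h0H : (0 : ℝ × ℝ) ∈ Half D := ⟨k0, hk0, k0, hk0, by simp⟩
  have hρ0 : 0 ≤ ρ := (norm_nonneg _).trans (hρ 0 h0H)
  refine ⟨‖k0‖ + ρ, by positivity, fun T hT W F hWc hWv hF => ?_⟩
  -- positions
  have hpos : ∀ t ∈ F, ∀ ζ ∈ Icc (0 : Fin m → ℝ) 1, ((t.1 + k0, t.2 + ζ) : E m) ∈ W := by
    intro t ht ζ hζ
    exact (hF t ht).2 ⟨(k0, ζ), ⟨hk0, hζ⟩, rfl⟩
  let Sl : E m → Set (Fin m → ℝ) := fun t => Set.pi univ fun i => Ioo (t.2 i) (t.2 i + 1)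
  have hSl : ∀ t, MeasurableSet (Sl t) := fun t =>
    MeasurableSet.univ_pi fun i => measurableSet_Ioo
  have hvol : ∀ t, volume (Sl t) = 1 := by
    intro t
    rw [Real.volume_pi_Ioo]
    simp
  let Fz : (Fin m → ℝ) → Finset (E m) := fun z => F.filter fun t => z ∈ Sl t
  have hFzW : ∀ z, ∀ t ∈ Fz z, ((t.1 + k0, z) : E m) ∈ W := by
    intro z t ht
    obtain ⟨h5, h6⟩ := Finset.mem_filter.1 ht
    have h8 : z - t.2 ∈ Icc (0 : Fin m → ℝ) 1 := by
      constructor
      · intro i
        have := (h6 i (mem_univ i)).1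
        simp only [Pi.zero_apply, Pi.sub_apply]
        linarith
      · intro i
        have := (h6 i (mem_univ i)).2
        simp only [Pi.one_apply, Pi.sub_apply]
        linarith
    have h9 := hpos t h5 _ h8
    rwa [add_sub_cancel] at h9
  set V : Set (E m) := W + Metric.closedBall 0 (‖k0‖ + ρ) with hV
  have hVc : IsCompact V := hWc.add (isCompact_closedBall _ _)
  have hPc : IsCompact (Prod.snd '' W) := hWc.image continuous_snd
  -- the slices
  have hFz : ∀ z, (Fz z).Nonempty → ((Fz z).card : ℝ) * A ≤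
      (volume ((fun x : ℝ × ℝ => ((x, z) : E m)) ⁻¹' V)).toReal + A := by
    intro z hne
    obtain ⟨hs, hi⟩ := h3 m D T hDc hDconv ⟨k0, hk0i⟩ hT z (Fz z) (by
      intro t ht
      obtain ⟨h5, h6⟩ := Finset.mem_filter.1 ht
      exact ⟨(hF t h5).1, fun i => h6 i (mem_univ i)⟩)
    have h7 := h2 A (Half D) hB hCap ((Fz z).image Prod.fst) (hne.image _) hs
    rw [Finset.card_image_of_injOn hi] at h7
    have hsub : convexHull ℝ (((Fz z).image Prod.fst : Finset (ℝ × ℝ)) : Set (ℝ × ℝ)) + Half D ⊆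
        (fun x : ℝ × ℝ => ((x, z) : E m)) ⁻¹' V := by
      have hc : convexHull ℝ (((Fz z).image Prod.fst : Finset (ℝ × ℝ)) : Set (ℝ × ℝ)) ⊆
          {q : ℝ × ℝ | ((q + k0, z) : E m) ∈ W} := by
        refine convexHull_min ?_ ?_
        · intro q hq
          obtain ⟨t, ht, rfl⟩ := Finset.mem_image.1 (Finset.mem_coe.1 hq)
          exact hFzW z t ht
        · intro a ha b hb s r hs0 hr0 hsr
          have h10 := hWv ha hb hs0 hr0 hsr
          show ((s • a + r • b + k0, z) : E m) ∈ W
          have h11 : ((s • a + r • b + k0, z) : E m) =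
              s • ((a + k0, z) : E m) + r • ((b + k0, z) : E m) := by
            have h12 : k0 = s • k0 + r • k0 := by rw [← add_smul, hsr, one_smul]
            have h13 : z = s • z + r • z := by rw [← add_smul, hsr, one_smul]
            refine Prod.ext ?_ ?_
            · show s • a + r • b + k0 = s • (a + k0) + r • (b + k0)
              rw [smul_add, smul_add]
              conv_lhs => rw [h12]
              abel
            · exact h13
          rw [h11]
          exact h10
      rintro _ ⟨q, hq, p, hp, rfl⟩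
      show ((q + p, z) : E m) ∈ V
      refine ⟨(q + k0, z), hc hq, (p - k0, 0), ?_, ?_⟩
      · rw [mem_closedBall_zero_iff, Prod.norm_def]
        refine max_le ?_ ?_
        · calc ‖p - k0‖ ≤ ‖p‖ + ‖k0‖ := norm_sub_le _ _
            _ ≤ ‖k0‖ + ρ := by linarith [hρ p hp]
        · show ‖(0 : Fin m → ℝ)‖ ≤ ‖k0‖ + ρ
          rw [norm_zero]
          positivity
      · refine Prod.ext ?_ ?_
        · show q + k0 + (p - k0) = q + p
          abel
        · show z + 0 = z
          rw [add_zero]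
    have hfin : volume ((fun x : ℝ × ℝ => ((x, z) : E m)) ⁻¹' V) ≠ ⊤ := by
      have h14 : (fun x : ℝ × ℝ => ((x, z) : E m)) ⁻¹' V ⊆ Prod.fst '' V := fun x hx => ⟨_, hx, rfl⟩
      exact ne_top_of_le_ne_top (hVc.image continuous_fst).measure_lt_top.ne (measure_mono h14)
    have h8 := ENNReal.toReal_mono hfin (measure_mono hsub)
    have h9 : 0 ≤ (volume (Half D)).toReal := ENNReal.toReal_nonneg
    linarith
  have hFzE : ∀ z, ((Fz z).card : ℝ≥0∞) * ENNReal.ofReal A ≤
      volume ((fun x : ℝ × ℝ => ((x, z) : E m)) ⁻¹' V) +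
        (Prod.snd '' W).indicator (fun _ => ENNReal.ofReal A) z := by
    intro z
    rcases (Fz z).eq_empty_or_nonempty with he | hne
    · rw [he]; simp
    · have hz : z ∈ Prod.snd '' W := by
        obtain ⟨t, ht⟩ := hne
        exact ⟨_, hFzW z t ht, rfl⟩
      rw [indicator_of_mem hz, ← ENNReal.ofReal_natCast, ← ENNReal.ofReal_mul (Nat.cast_nonneg _)]
      refine (ENNReal.ofReal_le_ofReal (hFz z hne)).trans ?_
      refine ENNReal.ofReal_add_le.trans ?_
      gcongr
      exact ENNReal.ofReal_toReal_le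
  -- integration
  have e2 : (fun z => ((Fz z).card : ℝ≥0∞)) =
      fun z => ∑ t ∈ F, (Sl t).indicator (fun _ => (1 : ℝ≥0∞)) z := by
    funext z
    simp only [indicator_apply]
    rw [Finset.card_filter]
    push_cast
    rfl
  have e1 : ((F.card : ℝ≥0∞)) = ∫⁻ z : Fin m → ℝ, ((Fz z).card : ℝ≥0∞) := by
    rw [e2]
    rw [lintegral_finsetSum _ (fun t _ => measurable_const.indicator (hSl t))]
    simp only [lintegral_indicator (hSl _), lintegral_one, Measure.restrict_apply_univ, hvol]
    simp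
  have e3 : (F.card : ℝ≥0∞) * ENNReal.ofReal A ≤
      volume V + ENNReal.ofReal A * volume (Prod.snd '' W) := by
    rw [e1, ← lintegral_mul_const _ (by
      rw [e2]
      exact Finset.measurable_sum _ fun t _ => measurable_const.indicator (hSl t))]
    calc ∫⁻ z : Fin m → ℝ, ((Fz z).card : ℝ≥0∞) * ENNReal.ofReal A
        ≤ ∫⁻ z : Fin m → ℝ, (volume ((fun x : ℝ × ℝ => ((x, z) : E m)) ⁻¹' V) +
            (Prod.snd '' W).indicator (fun _ => ENNReal.ofReal A) z) := lintegral_mono hFzE
      _ = (∫⁻ z : Fin m → ℝ, volume ((fun x : ℝ × ℝ => ((x, z) : E m)) ⁻¹' V)) +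
            ∫⁻ z : Fin m → ℝ, (Prod.snd '' W).indicator (fun _ => ENNReal.ofReal A) z :=
          lintegral_add_right _ (measurable_const.indicator hPc.measurableSet)
      _ = volume V + ENNReal.ofReal A * volume (Prod.snd '' W) := by
          rw [lintegral_indicator hPc.measurableSet, setLIntegral_const]
          congr 1
          rw [Measure.volume_eq_prod (ℝ × ℝ) (Fin m → ℝ), Measure.prod_apply_symm hVc.measurableSet]
  have hVt : volume V ≠ ⊤ := hVc.measure_lt_top.ne
  have hPt : volume (Prod.snd '' W) ≠ ⊤ := hPc.measure_lt_top.ne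
  have e4 := ENNReal.toReal_mono (ENNReal.add_ne_top.2 ⟨hVt, ENNReal.mul_ne_top
    ENNReal.ofReal_ne_top hPt⟩) e3
  rw [ENNReal.toReal_mul, ENNReal.toReal_add hVt (ENNReal.mul_ne_top ENNReal.ofReal_ne_top hPt),
    ENNReal.toReal_mul, ENNReal.toReal_ofReal hA, ENNReal.toReal_natCast] at e4
  exact e4

end Pool.Agent.E8helper63.TS
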