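import Pool.Agent.E8helper59.TS.Stm2
import Pool.Agent.E8helper88.TS.FIN

/-! # Project TS, S_FIN2 -/

set_option autoImplicit false

namespace Pool.Agent.E8helper63.TS

open Pool.Agent.E8helper59.TS

theorem t_FIN2 (h : S_DIR) : S_FIN2 := fun A B hB hC F hne hsep =>
  Pool.Agent.E8helper88.TS.core h A B hB hC F.card F rfl hne hsep

end Pool.Agent.E8helper63.TS
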